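import Pool.Agent.N721.SR.ZR2

/-!
# Matrices of zeros and ones without a `t × t` submatrix of ones: regular partitions

For all `t ≥ 2` and `η > 0` there is `K` such that every `n × n` matrix `A` of zeros and ones which
has no `t × t` submatrix of ones, for every `n`, has
* a set of rows and a set of columns with at most `η n ^ (2 - 1 / t)` ones in them, such that the
  matrix `A'` which is left after these rows and columns have been replaced by zeros differs from
  its averages over the blocks of partitions of the rows and of the columns into at most `K` classes
  each by a matrix of `l ^ 2` operator norm at most `η n ^ (1 - 1 / t)`;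
* the numbers of ones of `A` itself in all submatrices are given by the block densities of the same
  two partitions up to `η n ^ (2 - 1 / t)`.

This is the scale of the question: `z (n; t)` is at most `c n ^ (2 - 1 / t)`, and the norm of a matrix
with so many ones is at least `c n ^ (1 - 1 / t)`. So the matrices which the question is about have
bounded complexity, in operator norm and in cut norm. No assumption on the densities of submatrices
is made.

Proof. Kővári, Sós and Turán: few ones are in rows or columns with more than `b n ^ (1 - 1 / t)` ones,
and the number of closed walks of length four at each vertex of the bipartite graph of the remaining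
matrix has the order of magnitude `n ^ (3 - 4 / t)`. So the graph has boundedly many eigenvalues of
absolute value at least `s n ^ (1 - 1 / t)`, with eigenvectors which are small in the sup norm.
Partition the vertices according to the approximate values of these eigenvectors.
-/

set_option autoImplicit false

namespace Pool.Agent.Results.MP_2541dc_co.RegularMatrices

open Finset

/-- The entries of `A` are zeros and ones. -/
def ZeroOne {n : ℕ} (A : Fin n → Fin n → ℝ) : Prop := ∀ i j, A i j = 0 ∨ A i j = 1

/-- Any `t` rows and any `t` columns contain an entry `0` of `A`. -/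
def NoOnes {n : ℕ} (t : ℕ) (A : Fin n → Fin n → ℝ) : Prop :=
  ∀ a b : Fin t → Fin n, Function.Injective a → Function.Injective b → ∃ i j, A (a i) (b j) = 0

/-- `A` with the rows in `R` and the columns in `S` replaced by zeros. -/
noncomputable def erase {n : ℕ} (A : Fin n → Fin n → ℝ) (R S : Finset (Fin n)) :
    Fin n → Fin n → ℝ :=
  fun i j => if i ∈ R ∨ j ∈ S then 0 else A i j

/-- The average of the matrix `A` over the block of `(i, j)`, for the partitions of the rows and of
the columns into the fibres of `P` and `Q`. -/
noncomputable def blockAvg {n K : ℕ} (A : Fin n → Fin n → ℝ) (P Q : Fin n → Fin K)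
    (i j : Fin n) : ℝ :=
  (∑ x ∈ univ.filter (fun x => P x = P i), ∑ y ∈ univ.filter (fun y => Q y = Q j), A x y) /
    ((#(univ.filter fun x => P x = P i) : ℝ) * (#(univ.filter fun y => Q y = Q j) : ℝ))

theorem result (t : ℕ) (η : ℝ) (ht : 2 ≤ t) (hη : 0 < η) :
    ∃ K : ℕ, ∀ (n : ℕ) (A : Fin n → Fin n → ℝ), ZeroOne A → NoOnes t A →
      ∃ (R S : Finset (Fin n)) (P Q : Fin n → Fin K),
        -- few ones are in the rows in `R` and in the columns in `S`
        ∑ i ∈ R, ∑ j, A i j + ∑ j ∈ S, ∑ i, A i j ≤ η * (n : ℝ) ^ (2 - 1 / (t : ℝ)) ∧
        -- the operator norm of the difference of the rest and its block average is small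
        (∀ f g : Fin n → ℝ,
          |∑ i, ∑ j, (erase A R S i j - blockAvg (erase A R S) P Q i j) * f i * g j| ≤
            η * (n : ℝ) ^ (1 - 1 / (t : ℝ)) * Real.sqrt (∑ i, f i ^ 2) *
              Real.sqrt (∑ j, g j ^ 2)) ∧
        -- the numbers of ones in all submatrices
        ∀ X Y : Finset (Fin n), |∑ i ∈ X, ∑ j ∈ Y, (A i j - blockAvg A P Q i j)| ≤
          η * (n : ℝ) ^ (2 - 1 / (t : ℝ)) :=
  Pool.Agent.N721.SR.zar_regular t ht η hη

end Pool.Agent.Results.MP_2541dc_co.RegularMatrices
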